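import Mathlib
import Pool.Agent.W560.Sep.Low2
import Pool.Agent.W560.Sep.Low4
import Pool.Agent.W560.Sep.Form

/-! A geometrically smooth hypersurface of degree `> n` in `P^n` over a field of characteristic zero
is not unirational; generalisation of `W560.Sep` from the complex numbers to every field of
characteristic zero, with geometric smoothness and dominance over the base field. -/

set_option autoImplicit false

namespace Pool.Agent.Y68.UH

open MvPolynomial Finset W560.Sep

theorem grad_primitive {K : Type} [Field K] [CharZero K] {σ : Type} [Fintype σ] {N d : ℕ} (F : MvPolynomial σ K)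
    (hF : F.IsHomogeneous d) (hd : 1 ≤ d)
    (hsm : ∀ p : σ → AlgebraicClosure K, p ≠ 0 → aeval p F = 0 → ∃ i, aeval p (pderiv i F) ≠ 0)
    (P : σ → MvPolynomial (Fin N) K) (hprim : ∀ π : MvPolynomial (Fin N) K, Prime π → ∃ i, ¬ π ∣ P i)
    (π : MvPolynomial (Fin N) K) (hπ : Prime π) : ∃ i, ¬ π ∣ aeval P (pderiv i F) := by
  by_contra hcon
  push Not at hcon
  obtain ⟨a, ha⟩ := hprim π hπ
  apply ha
  let I : Ideal (MvPolynomial σ K) := Ideal.span (Set.range fun i => pderiv i F)
  have hX : (X a : MvPolynomial σ K) ∈ I.radical := by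
    rw [← vanishingIdeal_zeroLocus_eq_radical (K := AlgebraicClosure K), mem_vanishingIdeal_iff]
    intro p hp
    rw [mem_zeroLocus_iff] at hp
    have h1 : ∀ i, aeval p (pderiv i F) = 0 := by
      intro i
      exact hp (pderiv i F) (Ideal.subset_span ⟨i, rfl⟩)
    have h2 : p = 0 := by
      by_contra hp0
      have h3 := congrArg (aeval p) hF.sum_X_mul_pderiv
      rw [map_sum, Finset.sum_eq_zero (fun i _ => by rw [map_mul, h1 i, mul_zero]),
        nsmul_eq_mul, map_mul, map_natCast] at h3
      have h4 : aeval p F = 0 := by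
        rcases mul_eq_zero.mp h3.symm with h5 | h5
        · exact absurd (Nat.cast_eq_zero.mp h5) (by omega)
        · exact h5
      obtain ⟨i, hi⟩ := hsm p hp0 h4
      exact hi (h1 i)
    rw [h2]; simp
  obtain ⟨k, hk⟩ := hX
  have hall : ∀ G ∈ I, π ∣ aeval P G := by
    intro G hG
    induction hG using Submodule.span_induction with
    | mem x hx => obtain ⟨i, rfl⟩ := hx; exact hcon i
    | zero => rw [map_zero]; exact dvd_zero _
    | add x y _ _ hx hy => rw [map_add]; exact dvd_add hx hy
    | smul c x _ hx => rw [smul_eq_mul, map_mul]; exact Dvd.dvd.mul_left hx _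
  have := hall _ hk
  rw [map_pow, aeval_X] at this
  exact hπ.dvd_of_dvd_pow this

theorem core {K : Type} [Field K] [CharZero K] {τ : Type} [Fintype τ] [DecidableEq τ] (F : MvPolynomial (Option τ) K) (d e N : ℕ)
    (hF : F.IsHomogeneous d)
    (hsm : ∀ p : Option τ → AlgebraicClosure K, p ≠ 0 → aeval p F = 0 →
      ∃ i, aeval p (pderiv i F) ≠ 0)
    (hd : Fintype.card τ + 1 ≤ d) (P : Option τ → MvPolynomial (Fin N) K)
    (hP : ∀ i, (P i).IsHomogeneous e) (he : 1 ≤ e)
    (hprim : ∀ π : MvPolynomial (Fin N) K, Prime π → ∃ i, ¬ π ∣ P i) (hPF : aeval P F = 0)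
    (hind : AlgebraicIndependent K (fun i : τ => P (some i))) (hτ : 0 < Fintype.card τ) : False := by
  set w : Option τ → MvPolynomial (Fin N) K := fun i => aeval P (pderiv i F) with hw
  have hwhom : ∀ i, (w i).IsHomogeneous (e * (d - 1)) := fun i => (hF.pderiv).aeval _ hP
  have hwprim := grad_primitive F hF (by omega) hsm P hprim
  obtain ⟨J, hJ⟩ := jacobian _ hind
  set M : Matrix τ τ (MvPolynomial (Fin N) K) :=
    Matrix.of fun b i => pderiv (J b) (P (some i)) with hM
  have hrel : ∀ b, ∑ i, M b i * w (some i) + pderiv (J b) (P none) * w none = 0 := by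
    intro b
    have h1 := der_aeval (pderiv (J b)) P F
    rw [hPF, map_zero, Fintype.sum_option] at h1
    rw [add_comm, ← h1.symm]
    simp only [smul_eq_mul, hw, hM, Matrix.of_apply]
    congr 1
    · rw [mul_comm]
    · exact Finset.sum_congr rfl fun i _ => mul_comm _ _
  have hcr := cramer_dvd M (fun i => w (some i)) (fun b => pderiv (J b) (P none)) (w none) hrel
  have hall : ∀ i, w none ∣ M.det * w i := by
    intro i
    rcases i with _ | i
    · exact Dvd.intro_left _ rfl
    · exact hcr i
  have hw0 : w none ≠ 0 := by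
    intro h0
    obtain ⟨b⟩ := Fintype.card_pos_iff.mp hτ
    obtain ⟨i, hi⟩ := hwprim (X (J b)) X_prime
    apply hi
    have h1 := hall i
    rw [h0, zero_dvd_iff] at h1
    have h2 : w i = 0 := (mul_eq_zero.mp h1).resolve_left hJ
    change X (J b) ∣ w i
    rw [h2]
    exact dvd_zero _
  obtain ⟨Q, hQ⟩ := dvd_of_forall_dvd w hwprim (w none) hw0 M.det hall
  have hMdet : M.det.IsHomogeneous (Fintype.card τ * (e - 1)) :=
    det_homogeneous M fun b i => (hP (some i)).pderiv
  have h1 := hMdet.totalDegree hJ
  have hQ0 : Q ≠ 0 := by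
    rintro rfl
    rw [mul_zero] at hQ
    exact hJ hQ
  rw [hQ, totalDegree_mul_of_isDomain hw0 hQ0, (hwhom none).totalDegree hw0] at h1
  obtain ⟨e', rfl⟩ := Nat.exists_eq_add_of_le' he
  obtain ⟨d', rfl⟩ := Nat.exists_eq_add_of_le' (by omega : 1 ≤ d)
  simp only [Nat.add_sub_cancel] at h1
  have h2 : (e' + 1) * Fintype.card τ ≤ (e' + 1) * d' := Nat.mul_le_mul_left _ (by omega)
  nlinarith

/-- homogenisation -/
theorem homogenise {K : Type} [Field K] {σ : Type} [Fintype σ] {N : ℕ}
    (x : σ → FractionRing (MvPolynomial (Fin N) K)) (hx : x ≠ 0) :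
    ∃ (e : ℕ) (P : σ → MvPolynomial (Fin (N + 1)) K), (∀ i, (P i).IsHomogeneous e) ∧ P ≠ 0 ∧
      ∀ (d : ℕ) (G : MvPolynomial σ K), G.IsHomogeneous d → (aeval P G = 0 ↔ aeval x G = 0) := by
  classical
  obtain ⟨q, hq⟩ := IsLocalization.exist_integer_multiples_of_finite
    (nonZeroDivisors (MvPolynomial (Fin N) K)) x
  choose p hp using hq
  have hp' : ∀ i, algebraMap _ (FractionRing (MvPolynomial (Fin N) K)) (p i)
      = algebraMap _ (FractionRing (MvPolynomial (Fin N) K)) (q : MvPolynomial (Fin N) K) * x i := by
    intro i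
    rw [hp i, Algebra.smul_def]
  have hq0 : algebraMap _ (FractionRing (MvPolynomial (Fin N) K)) (q : MvPolynomial (Fin N) K) ≠ 0 := by
    rw [Ne, IsFractionRing.to_map_eq_zero_iff]
    exact nonZeroDivisors.coe_ne_zero q
  obtain ⟨e, he⟩ : ∃ e, ∀ i, (p i).totalDegree ≤ e :=
    ⟨Finset.univ.sup fun i => (p i).totalDegree, fun i =>
      Finset.le_sup (f := fun i => (p i).totalDegree) (Finset.mem_univ i)⟩
  set P : σ → MvPolynomial (Fin (N + 1)) K := fun i =>
    ∑ j ∈ range (e + 1), rename Fin.succ (homogeneousComponent j (p i)) * X 0 ^ (e - j) with hP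
  let θ : MvPolynomial (Fin (N + 1)) K →ₐ[K] MvPolynomial (Fin N) K :=
    aeval (Fin.cons 1 X : Fin (N + 1) → MvPolynomial (Fin N) K)
  have hθ : ∀ i, θ (P i) = p i := by
    intro i
    simp only [hP, map_sum, map_mul, map_pow]
    have h1 : ∀ j ∈ range (e + 1), θ (rename Fin.succ (homogeneousComponent j (p i)))
        * θ (X 0) ^ (e - j) = homogeneousComponent j (p i) := by
      intro j _
      simp only [θ, aeval_rename, aeval_X, Fin.cons_zero, one_pow, mul_one]
      have : (Fin.cons 1 X : Fin (N + 1) → MvPolynomial (Fin N) K) ∘ Fin.succ = X := by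
        funext l; simp
      rw [this, aeval_X_left_apply]
    rw [Finset.sum_congr rfl h1]
    have h2 := sum_homogeneousComponent (p i)
    conv_rhs => rw [← h2]
    symm
    apply Finset.sum_subset
    · intro j hj
      have := Finset.mem_range.mp hj
      exact Finset.mem_range.mpr (by have := he i; omega)
    · intro j _ hj
      apply homogeneousComponent_eq_zero
      have := mt Finset.mem_range.mpr hj
      omega
  let L := FractionRing (MvPolynomial (Fin (N + 1)) K)
  let ι := algebraMap (MvPolynomial (Fin (N + 1)) K) L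
  have hX0 : ι (X 0) ≠ 0 := by
    rw [Ne, IsFractionRing.to_map_eq_zero_iff]
    exact X_ne_zero _
  have hι : ∀ g, ι g = aeval (fun l => ι (X l)) g := by
    intro g
    have h1 : ι g = ι (aeval X g) := by rw [aeval_X_left_apply]
    rw [h1, ← MvPolynomial.aeval_algebraMap_apply]
    rfl
  let ψ : MvPolynomial (Fin N) K →ₐ[K] L := aeval (fun l => ι (X l.succ) / ι (X 0))
  have hψ : ∀ i, ι (P i) = ι (X 0) ^ e * ψ (p i) := by
    intro i
    have h1 : ∀ j ∈ range (e + 1), ι (rename Fin.succ (homogeneousComponent j (p i)) * X 0 ^ (e - j))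
        = ι (X 0) ^ e * ψ (homogeneousComponent j (p i)) := by
      intro j hj
      have hj' := Finset.mem_range.mp hj
      have h2 := aeval_scale (homogeneousComponent j (p i)) (homogeneousComponent_isHomogeneous j _)
        (ι (X 0)) (fun l => ι (X l.succ) / ι (X 0))
      have h3 : (fun l : Fin N => ι (X 0) * (ι (X l.succ) / ι (X 0))) = fun l => ι (X l.succ) := by
        funext l
        rw [mul_div_assoc', mul_div_cancel_left₀ _ hX0]
      have h4 : ι (rename Fin.succ (homogeneousComponent j (p i)))
          = aeval (fun l : Fin N => ι (X l.succ)) (homogeneousComponent j (p i)) := by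
        rw [hι, aeval_rename]
        rfl
      rw [map_mul, map_pow, h4, ← h3, h2]
      change _ = ι (X 0) ^ e * aeval (fun l => ι (X l.succ) / ι (X 0)) (homogeneousComponent j (p i))
      have h6 : ι (X 0) ^ e = ι (X 0) ^ j * ι (X 0) ^ (e - j) := by
        rw [← pow_add]; congr 1; omega
      rw [h6]; ring
    simp only [hP, map_sum]
    rw [Finset.sum_congr rfl h1, ← Finset.mul_sum, ← map_sum]
    congr 2
    have h2 := sum_homogeneousComponent (p i)
    conv_rhs => rw [← h2]
    symm
    apply Finset.sum_subset
    · intro j hj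
      have := Finset.mem_range.mp hj
      exact Finset.mem_range.mpr (by have := he i; omega)
    · intro j _ hj
      apply homogeneousComponent_eq_zero
      have := mt Finset.mem_range.mpr hj
      omega
  refine ⟨e, P, ?_, ?_, ?_⟩
  · intro i
    refine IsHomogeneous.sum _ _ _ fun j hj => ?_
    have hj' := Finset.mem_range.mp hj
    have h1 : (rename Fin.succ (homogeneousComponent j (p i)) : MvPolynomial (Fin (N + 1)) K).IsHomogeneous j :=
      (homogeneousComponent_isHomogeneous j _).rename_isHomogeneous
    have h2 := h1.mul (isHomogeneous_X_pow (R := K) (0 : Fin (N + 1)) (e - j))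
    rwa [show j + (e - j) = e by omega] at h2
  · intro h0
    apply hx
    funext i
    have h1 := hθ i
    rw [h0, Pi.zero_apply, map_zero] at h1
    have h2 := hp' i
    rw [← h1, map_zero] at h2
    exact (mul_eq_zero.mp h2.symm).resolve_left hq0
  · intro d G hG
    have hxp : aeval x G = 0 ↔ aeval p G = 0 := by
      have h1 : algebraMap _ (FractionRing (MvPolynomial (Fin N) K)) (aeval p G)
          = (algebraMap _ (FractionRing (MvPolynomial (Fin N) K)) (q : MvPolynomial (Fin N) K)) ^ d
            * aeval x G := by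
        rw [← aeval_scale G hG, ← MvPolynomial.aeval_algebraMap_apply]
        congr 2
        funext i
        exact hp' i
      constructor
      · intro h
        rw [h, mul_zero, IsFractionRing.to_map_eq_zero_iff] at h1
        exact h1
      · intro h
        rw [h, map_zero] at h1
        exact (mul_eq_zero.mp h1.symm).resolve_left (pow_ne_zero _ hq0)
    rw [hxp]
    constructor
    · intro h
      have h1 := congrArg θ h
      rw [map_zero, MvPolynomial.comp_aeval_apply] at h1
      rw [← h1]
      congr 2
      funext i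
      exact (hθ i).symm
    · intro h
      have h1 : ι (aeval P G) = (ι (X 0) ^ e) ^ d * ψ (aeval p G) := by
        rw [MvPolynomial.comp_aeval_apply, ← aeval_scale G hG]
        have h2 : ι (aeval P G) = aeval (fun i => ι (P i)) G := by
          rw [← MvPolynomial.aeval_algebraMap_apply]; rfl
        rw [h2]
        congr 2
        funext i
        exact hψ i
      rw [h, map_zero, mul_zero, IsFractionRing.to_map_eq_zero_iff] at h1
      exact h1

/-- a homogeneous parametrisation of degree `e` in `N` variables -/
def HPar {K : Type} [Field K] {σ : Type} (F : MvPolynomial σ K) (N e : ℕ) (P : σ → MvPolynomial (Fin N) K) : Prop :=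
  (∀ i, (P i).IsHomogeneous e) ∧ P ≠ 0 ∧ aeval P F = 0 ∧
    ∀ (k : ℕ) (G : MvPolynomial σ K), G.IsHomogeneous k → aeval P G = 0 → F ∣ G

/-- minimal parametrisations are primitive -/
theorem exists_primitive {K : Type} [Field K] {σ : Type} (F : MvPolynomial σ K) (d N : ℕ)
    (hF : F.IsHomogeneous d) (h : ∃ e P, HPar F N e P) :
    ∃ e P, HPar F N e P ∧ ∀ π : MvPolynomial (Fin N) K, Prime π → ∃ i, ¬ π ∣ P i := by
  classical
  have hex : ∃ e, ∃ P, HPar F N e P := h
  obtain ⟨P, hP⟩ := Nat.find_spec hex
  set e := Nat.find hex with he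
  refine ⟨e, P, hP, fun π hπ => ?_⟩
  by_contra hcon
  push Not at hcon
  obtain ⟨hhom, hne, hPF, hdense⟩ := hP
  choose q hq using hcon
  set l := π.totalDegree with hl
  have hl1 : 1 ≤ l := by
    rcases Nat.eq_zero_or_pos l with h0 | h0
    · exfalso
      obtain h1 := totalDegree_eq_zero_iff_eq_C.mp h0
      apply hπ.not_isUnit
      rw [h1]
      have h2 : coeff 0 π ≠ 0 := by
        intro h3
        rw [h3, map_zero] at h1
        exact hπ.ne_zero h1
      exact (h2.isUnit).map C
    · exact h0
  obtain ⟨i0, hi0⟩ : ∃ i, P i ≠ 0 := by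
    by_contra hc
    push Not at hc
    exact hne (funext hc)
  have hdegq : ∀ i, P i ≠ 0 → l + (q i).totalDegree = e := by
    intro i hi
    have h1 := (hhom i).totalDegree hi
    have hqi : q i ≠ 0 := by
      intro h2
      apply hi
      rw [hq i, h2, mul_zero]
    rw [hq i, totalDegree_mul_of_isDomain hπ.ne_zero hqi] at h1
    exact h1
  have hle : l ≤ e := by have := hdegq i0 hi0; omega
  set π' := homogeneousComponent l π with hπ'
  set P' : σ → MvPolynomial (Fin N) K := fun i => homogeneousComponent (e - l) (q i) with hP'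
  have hfac : ∀ i, P i = π' * P' i := by
    intro i
    have h1 : homogeneousComponent e (P i) = P i := homogeneousComponent_eq_self (hhom i)
    have h2 : (q i).totalDegree ≤ e - l := by
      by_cases hi : P i = 0
      · have : q i = 0 := by
          have := hq i
          rw [hi] at this
          exact (mul_eq_zero.mp this.symm).resolve_left hπ.ne_zero
        rw [this]; simp
      · have := hdegq i hi; omega
    have h3 := hc_mul π (q i) l (e - l) le_rfl h2
    rw [← hq i, show l + (e - l) = e by omega, h1] at h3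
    exact h3
  have hlt : e - l < Nat.find hex := by omega
  apply Nat.find_min hex hlt
  refine ⟨P', fun i => homogeneousComponent_isHomogeneous _ _, ?_, ?_, ?_⟩
  · intro h0
    apply hi0
    rw [hfac i0, h0, Pi.zero_apply, mul_zero]
  · have h1 := aeval_scale F hF π' P'
    have h2 : (fun i => π' * P' i) = P := (funext hfac).symm
    rw [h2, hPF] at h1
    have hπ0 : π' ≠ 0 := by
      intro h0
      apply hi0
      rw [hfac i0, h0, zero_mul]
    exact (mul_eq_zero.mp h1.symm).resolve_left (pow_ne_zero _ hπ0)
  · intro k G hG hGP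
    apply hdense k G hG
    have h1 := aeval_scale G hG π' P'
    have h2 : (fun i => π' * P' i) = P := (funext hfac).symm
    rw [h2, hGP, mul_zero] at h1
    exact h1

/-- density for all polynomials -/
theorem dense_all {K : Type} [Field K] {σ : Type} {F : MvPolynomial σ K} {N e : ℕ}
    {P : σ → MvPolynomial (Fin N) K}
    (hP : HPar F N e P) (he : 1 ≤ e) (G : MvPolynomial σ K) (hG : aeval P G = 0) : F ∣ G := by
  obtain ⟨hhom, hne, hPF, hdense⟩ := hP
  have hcomp : ∀ k, aeval P (homogeneousComponent k G) = 0 := by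
    intro k
    have h1 : ∀ j, (aeval P (homogeneousComponent j G)).IsHomogeneous (e * j) := fun j =>
      (homogeneousComponent_isHomogeneous j G).aeval _ hhom
    have h2 := congrArg (fun g => homogeneousComponent (e * k) (aeval P g)) (sum_homogeneousComponent G)
    simp only [map_sum, hG, map_zero] at h2
    have h3 : ∀ j, homogeneousComponent (e * k) (aeval P (homogeneousComponent j G))
        = if j = k then aeval P (homogeneousComponent k G) else 0 := by
      intro j
      by_cases hj : j = k
      · subst hj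
        rw [if_pos rfl]
        exact homogeneousComponent_eq_self (h1 j)
      · rw [if_neg hj, homogeneousComponent_of_mem (h1 j), if_neg]
        intro h4
        exact hj (Nat.eq_of_mul_eq_mul_left (by omega) h4.symm)
    rw [Finset.sum_congr rfl fun j _ => h3 j, Finset.sum_ite_eq'] at h2
    by_cases hk : k ∈ range (G.totalDegree + 1)
    · rw [if_pos hk] at h2; exact h2
    · have : homogeneousComponent k G = 0 := by
        apply homogeneousComponent_eq_zero
        have := mt Finset.mem_range.mpr hk
        omega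
      rw [this, map_zero]
  rw [← sum_homogeneousComponent G]
  exact Finset.dvd_sum fun k _ => hdense k _ (homogeneousComponent_isHomogeneous k G) (hcomp k)

theorem opt_rename {K : Type} [Field K] {τ : Type} (g : MvPolynomial τ K) :
    optionEquivLeft K τ (rename some g) = Polynomial.C g := by
  induction g using MvPolynomial.induction_on with
  | C c => rw [rename_C, optionEquivLeft_C]
  | add p q hp hq => rw [map_add, map_add, map_add, hp, hq]
  | mul_X p i hp => rw [map_mul, map_mul, map_mul, hp, rename_X, optionEquivLeft_X_some]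

theorem indep_of_dense {K : Type} [Field K] {τ : Type} {F : MvPolynomial (Option τ) K} {N : ℕ}
    {P : Option τ → MvPolynomial (Fin N) K}
    (hdeg : 0 < (optionEquivLeft K τ F).natDegree)
    (hdense : ∀ G : MvPolynomial (Option τ) K, aeval P G = 0 → F ∣ G) :
    AlgebraicIndependent K (fun i : τ => P (some i)) := by
  rw [algebraicIndependent_iff]
  intro G hG
  by_contra hG0
  have h1 : F ∣ rename some G := hdense _ (by rw [aeval_rename]; exact hG)
  have h2 := map_dvd (optionEquivLeft K τ) h1
  have h3 : optionEquivLeft K τ (rename some G) = Polynomial.C G := by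
    exact opt_rename G
  rw [h3] at h2
  have h4 := Polynomial.natDegree_le_of_dvd h2 (by rwa [Ne, Polynomial.C_eq_zero])
  rw [Polynomial.natDegree_C] at h4
  omega

/-- a parametrisation of degree zero is not dominant -/
theorem e_zero {K : Type} [Field K] {σ : Type} (F : MvPolynomial σ K) (d N : ℕ)
    (hF : F.IsHomogeneous d) (hF0 : F ≠ 0) (hd : 2 ≤ d) (hσ : ∀ a : σ, ∃ b, b ≠ a)
    (P : σ → MvPolynomial (Fin N) K) (hP : HPar F N 0 P) : False := by
  classical
  obtain ⟨hhom, hne, hPF, hdense⟩ := hP
  obtain ⟨c, hc⟩ : ∃ c : σ → K, ∀ i, P i = C (c i) := by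
    refine ⟨fun i => coeff 0 (P i), fun i => ?_⟩
    exact totalDegree_eq_zero_iff_eq_C.mp (Nat.le_zero.mp (hhom i).totalDegree_le)
  have hcne : c ≠ 0 := by
    intro h
    apply hne
    funext i
    rw [hc i, h, Pi.zero_apply, map_zero, Pi.zero_apply]
  obtain ⟨a, ha⟩ : ∃ a, c a ≠ 0 := by
    by_contra h
    push Not at h
    exact hcne (funext h)
  obtain ⟨b, hb⟩ := hσ a
  have hhomG : (C (c a) * X b - C (c b) * X a : MvPolynomial σ K).IsHomogeneous 1 :=
    (isHomogeneous_C_mul_X _ _).sub (isHomogeneous_C_mul_X _ _)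
  have h1 := hdense 1 (C (c a) * X b - C (c b) * X a) hhomG (by
        rw [map_sub, map_mul, map_mul, aeval_X, aeval_X, hc a, hc b, aeval_C, aeval_C]
        simp only [algebraMap_eq]
        ring)
  have hG0 : (C (c a) * X b - C (c b) * X a : MvPolynomial σ K) ≠ 0 := by
    intro h0
    have h2 := congrArg (eval (Pi.single b 1 : σ → K)) h0
    rw [map_sub, map_mul, map_mul, eval_C, eval_C, eval_X, eval_X, Pi.single_eq_same,
      Pi.single_eq_of_ne hb.symm, mul_one, mul_zero, sub_zero, map_zero] at h2
    exact ha h2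
  obtain ⟨Q, hQ⟩ := h1
  have hQ0 : Q ≠ 0 := by
    rintro rfl
    rw [mul_zero] at hQ
    exact hG0 hQ
  have h3 := congrArg totalDegree hQ
  rw [totalDegree_mul_of_isDomain hF0 hQ0, hF.totalDegree hF0, hhomG.totalDegree hG0] at h3
  omega

theorem lower_opt {K : Type} [Field K] [CharZero K] {τ : Type} [Fintype τ] [DecidableEq τ] (F : MvPolynomial (Option τ) K) (d N : ℕ)
    (hF : F.IsHomogeneous d)
    (hsm : ∀ p : Option τ → AlgebraicClosure K, p ≠ 0 → aeval p F = 0 →
      ∃ i, aeval p (pderiv i F) ≠ 0)
    (hdeg : 0 < (optionEquivLeft K τ F).natDegree) (hτ : 0 < Fintype.card τ)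
    (x : Option τ → FractionRing (MvPolynomial (Fin N) K)) (hx : x ≠ 0) (hxF : aeval x F = 0)
    (hdense : ∀ (k : ℕ) (G : MvPolynomial (Option τ) K), G.IsHomogeneous k → aeval x G = 0 →
      F ∣ G) : d ≤ Fintype.card τ := by
  by_contra hcon
  obtain ⟨e0, P0, h1, h2, h3⟩ := homogenise x hx
  have hex : ∃ e P, HPar F (N + 1) e P :=
    ⟨e0, P0, h1, h2, (h3 d F hF).mpr hxF, fun k G hG hGP => hdense k G hG ((h3 k G hG).mp hGP)⟩
  obtain ⟨e, P, hP, hprim⟩ := exists_primitive F d (N + 1) hF hex
  rcases Nat.eq_zero_or_pos e with he | he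
  · subst he
    have hF0 : F ≠ 0 := by
      rintro rfl
      rw [map_zero, Polynomial.natDegree_zero] at hdeg
      exact lt_irrefl _ hdeg
    obtain ⟨t⟩ := Fintype.card_pos_iff.mp hτ
    have hσ : ∀ a : Option τ, ∃ b, b ≠ a := by
      intro a
      rcases a with _ | a
      · exact ⟨some t, by simp⟩
      · exact ⟨none, by simp⟩
    exact e_zero F d (N + 1) hF hF0 (by omega) hσ P hP
  · exact core F d e (N + 1) hF hsm (by omega) P hP.1 he hprim hP.2.2.1
      (indep_of_dense hdeg (dense_all hP he)) hτ

/-- a smooth unirational hypersurface of degree `d ≥ 1` in `P^n` has `d ≤ n` -/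
theorem lower {K : Type} [Field K] [CharZero K] (d n N : ℕ) (hd : 1 ≤ d) (F : MvPolynomial (Fin (n + 1)) K)
    (hF : F.IsHomogeneous d)
    (hsm : ∀ p : Fin (n + 1) → AlgebraicClosure K, p ≠ 0 → aeval p F = 0 →
      ∃ i, aeval p (pderiv i F) ≠ 0)
    (x : Fin (n + 1) → FractionRing (MvPolynomial (Fin N) K)) (hx : x ≠ 0) (hxF : aeval x F = 0)
    (hdense : ∀ (k : ℕ) (G : MvPolynomial (Fin (n + 1)) K), G.IsHomogeneous k → aeval x G = 0 →
      F ∣ G) : d ≤ n := by
  classical
  rcases Nat.eq_zero_or_pos n with hn | hn
  · exfalso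
    subst hn
    have hz : ∀ i : Fin (0 + 1), i = 0 := by
      intro i
      apply Fin.ext
      have := i.2
      simp only [Fin.val_zero]
      omega
    have hx0 : x 0 ≠ 0 := by
      intro h
      apply hx
      funext i
      rw [hz i, h]; rfl
    have h1 := aeval_scale F hF (x 0) (fun _ => (1 : FractionRing (MvPolynomial (Fin N) K)))
    have h2 : (fun _ : Fin 1 => x 0 * 1) = x := by
      funext i
      rw [hz i, mul_one]
    rw [h2, hxF] at h1
    have h3 : aeval (fun _ : Fin 1 => (1 : FractionRing (MvPolynomial (Fin N) K))) F = 0 :=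
      (mul_eq_zero.mp h1.symm).resolve_left (pow_ne_zero _ hx0)
    have h4 : ∀ (A : Type) [CommRing A] [Algebra K A] (G : MvPolynomial (Fin 1) K),
        aeval (fun _ : Fin 1 => (1 : A)) G = algebraMap K A (eval (fun _ => 1) G) := by
      intro A _ _ G
      induction G using MvPolynomial.induction_on with
      | C c => rw [aeval_C, eval_C]
      | add p q hp hq => rw [map_add, map_add, map_add, hp, hq]
      | mul_X p i hp => rw [map_mul, map_mul, map_mul, hp, aeval_X, eval_X, map_one]
    rw [h4, map_eq_zero] at h3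
    have h5 : (fun _ : Fin 1 => (1 : AlgebraicClosure K)) ≠ 0 := by
      intro h
      exact one_ne_zero (congrFun h 0)
    have h3' : aeval (fun _ : Fin 1 => (1 : AlgebraicClosure K)) F = 0 := by
      rw [h4, h3, map_zero]
    obtain ⟨i, hi⟩ := hsm _ h5 h3'
    have h6 := congrArg (aeval (fun _ : Fin 1 => (1 : AlgebraicClosure K))) hF.sum_X_mul_pderiv
    rw [nsmul_eq_mul, map_mul, h3', mul_zero, Fin.sum_univ_one, map_mul, aeval_X, one_mul] at h6
    rw [hz i] at hi
    exact hi h6
  · have hF0 : F ≠ 0 := by
      rintro rfl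
      have h5 : (fun _ : Fin (n + 1) => (1 : AlgebraicClosure K)) ≠ 0 := by
        intro h
        exact one_ne_zero (congrFun h 0)
      obtain ⟨i, hi⟩ := hsm _ h5 (by simp)
      apply hi; simp
    obtain ⟨m, hm⟩ := MvPolynomial.ne_zero_iff.mp hF0
    have hmdeg : m.degree = d := by
      by_contra h
      exact hm (hF.coeff_eq_zero h)
    obtain ⟨a, ha⟩ : ∃ a, m a ≠ 0 := by
      by_contra h
      push Not at h
      have : m = 0 := Finsupp.ext h
      rw [this] at hmdeg
      simp at hmdeg
      omega
    let τ := {i : Fin (n + 1) // i ≠ a}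
    let ε : Fin (n + 1) ≃ Option τ := (Equiv.optionSubtypeNe a).symm
    have hεa : ε a = none := by
      change (Equiv.optionSubtypeNe a).symm a = none
      rw [Equiv.symm_apply_eq]
      simp
    have hcard : Fintype.card τ = n := by
      have := Fintype.card_congr ε
      rw [Fintype.card_option, Fintype.card_fin] at this
      omega
    have hpos : 0 < Fintype.card τ := by omega
    have := lower_opt (τ := τ) (rename ε F) d N hF.rename_isHomogeneous ?_ ?_ hpos
      (fun o => x (ε.symm o)) ?_ ?_ ?_
    · rw [hcard] at this; exact this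
    · intro p hp hpF
      rw [aeval_rename] at hpF
      obtain ⟨i, hi⟩ := hsm (p ∘ ε) (by
        intro h
        apply hp
        funext o
        have := congrFun h (ε.symm o)
        simpa using this) hpF
      refine ⟨ε i, ?_⟩
      rw [pderiv_rename ε.injective, aeval_rename]
      exact hi
    · rw [natDegree_optionEquivLeft, ← hεa, degreeOf_rename_of_injective ε.injective]
      rw [degreeOf_eq_sup]
      refine lt_of_lt_of_le (Nat.pos_of_ne_zero ha) ?_
      exact Finset.le_sup (f := fun m : Fin (n + 1) →₀ ℕ => m a) (mem_support_iff.mpr hm)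
    · intro h
      apply hx
      funext i
      have := congrFun h (ε i)
      simpa using this
    · rw [aeval_rename]
      have : (fun o => x (ε.symm o)) ∘ ε = x := by funext i; simp
      rw [this, hxF]
    · intro k G hG hGx
      obtain ⟨G', rfl⟩ := (renameEquiv K ε).surjective G
      change (rename ε G').IsHomogeneous k at hG
      change aeval _ (rename ε G') = 0 at hGx
      change rename ε F ∣ rename ε G'
      rw [IsHomogeneous.rename_isHomogeneous_iff ε.injective] at hG
      rw [aeval_rename] at hGx
      have h1 : (fun o => x (ε.symm o)) ∘ ε = x := by funext i; simp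
      rw [h1] at hGx
      exact map_dvd (rename ε) (hdense k G' hG hGx)

end Pool.Agent.Y68.UH
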