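import Mathlib
import Pool.Agent.W560.Sep.Final

/-! The chain form is smooth and unirational over every field of characteristic zero. -/

set_option autoImplicit false

namespace Pool.Agent.Y68.UH

open MvPolynomial Finset W560.Sep

/-- The chain form `x_0^(d-1) x_1 + x_1^(d-1) x_2 + ... + x_(d-1)^(d-1) x_d + x_d^d + ... + x_n^d`. -/
noncomputable def chainForm (K : Type) [CommSemiring K] (d n : ℕ) : MvPolynomial (Fin (n + 1)) K :=
  ∑ i : Fin (n + 1), if (i : ℕ) < d then X i ^ (d - 1) * X (i + 1) else X i ^ d

/-- the enumeration of the variables -/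
def ef (m s : ℕ) : Option (Fin (m + 2) ⊕ Fin s) → Fin (m + 2 + s + 1)
  | none => ⟨m + 2, by omega⟩
  | some (Sum.inl i) => ⟨i, by have := i.2; omega⟩
  | some (Sum.inr j) => ⟨m + 3 + j, by have := j.2; omega⟩

theorem ef_inj (m s : ℕ) : Function.Injective (ef m s) := by
  intro a b h
  rcases a with _ | a | a <;> rcases b with _ | b | b <;> have h' := congrArg Fin.val h <;>
    simp only [ef] at h'
  · rfl
  · have := b.2; omega
  · omega
  · have := a.2; omega
  · rw [Fin.ext h']
  · have := a.2; omega
  · omega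
  · have := b.2; omega
  · rw [Fin.ext (show (a : ℕ) = b by omega)]

theorem ef_bij (m s : ℕ) : Function.Bijective (ef m s) := by
  rw [Fintype.bijective_iff_injective_and_card]
  exact ⟨ef_inj m s, by simp⟩

/-- the enumeration of the variables, as an equivalence -/
noncomputable def ee (m s : ℕ) : Option (Fin (m + 2) ⊕ Fin s) ≃ Fin (m + 2 + s + 1) :=
  Equiv.ofBijective (ef m s) (ef_bij m s)

theorem ee_apply (m s : ℕ) (o : Option (Fin (m + 2) ⊕ Fin s)) : ee m s o = ef m s o := rfl

theorem chain_eq (K : Type) [Field K] (m s : ℕ) :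
    rename (ee m s) (FV K m s) = chainForm K (m + 2) (m + 2 + s) := by
  classical
  unfold chainForm FV
  rw [← (ee m s).sum_comp, Fintype.sum_option, Fintype.sum_sum_type]
  rw [map_add, map_add, map_sum, map_sum, Finset.sum_range]
  have h1 : ∀ i : Fin (m + 2), rename (ee m s) (X (vi m s i) ^ (m + 1) * X (vi m s (i + 1)) :
      MvPolynomial _ K) = if ((ee m s (some (Sum.inl i)) : Fin (m + 2 + s + 1)) : ℕ) < m + 2
        then X (ee m s (some (Sum.inl i))) ^ (m + 2 - 1) * X (ee m s (some (Sum.inl i)) + 1)
        else X (ee m s (some (Sum.inl i))) ^ (m + 2) := by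
    intro i
    have hi := i.2
    have e1 : vi m s i = some (Sum.inl i) := by
      unfold vi; rw [dif_pos hi]
    have e2 : ee m s (vi m s (i + 1)) = ee m s (some (Sum.inl i)) + 1 := by
      have hv : ((1 : Fin (m + 2 + s + 1)) : ℕ) = 1 := by
        rw [Fin.val_one']
        exact Nat.mod_eq_of_lt (by omega)
      apply Fin.ext
      rw [Fin.val_add, hv, ee_apply, ee_apply]
      have hv2 : ((ef m s (some (Sum.inl i)) : Fin (m + 2 + s + 1)) : ℕ) = i := rfl
      rw [hv2, Nat.mod_eq_of_lt (by omega)]
      unfold vi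
      split_ifs with h
      · rfl
      · simp only [ef]; omega
    rw [if_pos (by rw [ee_apply]; simpa only [ef] using hi), map_mul, map_pow, rename_X, rename_X,
      e1, e2]
    rfl
  have h2 : ∀ j : Fin s, rename (ee m s) (X (some (Sum.inr j)) ^ (m + 2) : MvPolynomial _ K)
      = if ((ee m s (some (Sum.inr j)) : Fin (m + 2 + s + 1)) : ℕ) < m + 2
        then X (ee m s (some (Sum.inr j))) ^ (m + 2 - 1) * X (ee m s (some (Sum.inr j)) + 1)
        else X (ee m s (some (Sum.inr j))) ^ (m + 2) := by
    intro j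
    rw [if_neg (by rw [ee_apply]; simp only [ef]; omega), map_pow, rename_X]
  have h3 : rename (ee m s) (X none ^ (m + 2) : MvPolynomial (Option (Fin (m + 2) ⊕ Fin s)) K)
      = if ((ee m s none : Fin (m + 2 + s + 1)) : ℕ) < m + 2
        then X (ee m s none) ^ (m + 2 - 1) * X (ee m s none + 1)
        else X (ee m s none) ^ (m + 2) := by
    rw [if_neg (by rw [ee_apply]; simp only [ef]; omega), map_pow, rename_X]
  rw [Finset.sum_congr rfl fun i _ => h1 i, Finset.sum_congr rfl fun j _ => h2 j, h3]
  ring

theorem map_chain {K L : Type} [Field K] [Field L] (f : K →+* L) (d n : ℕ) :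
    map f (chainForm K d n) = chainForm L d n := by
  unfold chainForm
  rw [map_sum]
  refine Finset.sum_congr rfl fun i _ => ?_
  split_ifs
  · rw [map_mul, map_pow, map_X, map_X]
  · rw [map_pow, map_X]

theorem chain_smooth (K : Type) [Field K] [CharZero K] (m s : ℕ) (p : Fin (m + 2 + s + 1) → K)
    (h : ∀ i, eval p (pderiv i (chainForm K (m + 2) (m + 2 + s))) = 0) : p = 0 := by
  have h1 := FV_smooth (k := K) (m := m) (s := s) (fun v => p (ee m s v)) (by
    intro v
    have h2 := h (ee m s v)
    rw [← chain_eq, pderiv_rename (ee m s).injective, eval_rename] at h2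
    exact h2)
  funext i
  have := congrFun h1 ((ee m s).symm i)
  simpa using this

theorem chain_smooth' (K : Type) [Field K] [CharZero K] (m s : ℕ)
    (p : Fin (m + 2 + s + 1) → AlgebraicClosure K) (hp : p ≠ 0) :
    ∃ i, aeval p (pderiv i (chainForm K (m + 2) (m + 2 + s))) ≠ 0 := by
  by_contra hcon
  push Not at hcon
  apply hp
  have : CharZero (AlgebraicClosure K) :=
    charZero_of_injective_algebraMap (algebraMap K (AlgebraicClosure K)).injective
  apply chain_smooth (AlgebraicClosure K) m s p
  intro i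
  have h1 := hcon i
  rw [← map_chain (algebraMap K (AlgebraicClosure K)), pderiv_map, eval_map]
  exact h1

theorem chain_hom (K : Type) [Field K] (m s : ℕ) :
    (chainForm K (m + 2) (m + 2 + s)).IsHomogeneous (m + 2) := by
  rw [← chain_eq]
  exact (FV_homogeneous K m s).rename_isHomogeneous

theorem chain_irreducible (K : Type) [Field K] (m s : ℕ) :
    Irreducible (chainForm K (m + 2) (m + 2 + s)) := by
  rw [← chain_eq]
  exact (MulEquiv.irreducible_iff (renameEquiv K (ee m s))).mpr (FV_irreducible K m s)

theorem chain_param (K : Type) [Field K] [CharZero K] (m s : ℕ) :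
    ∃ x : Fin (m + 2 + s + 1) → FractionRing (MvPolynomial (Fin (m + 2 + s)) K),
      x ≠ 0 ∧ aeval x (chainForm K (m + 2) (m + 2 + s)) = 0 ∧
        ∀ G, aeval x G = 0 → chainForm K (m + 2) (m + 2 + s) ∣ G := by
  obtain ⟨B, hB0, hBF, hB⟩ := exists_generic K m s
  have c2 : Fintype.card (Fin (m + 2) ⊕ Fin s) = Fintype.card (Fin (m + 2 + s)) := by simp
  let e := ee m s
  let e' : Fin (m + 2) ⊕ Fin s ≃ Fin (m + 2 + s) := Fintype.equivOfCardEq c2
  obtain ⟨φ, hφ⟩ := exists_hom (k := K) e'
  rw [← chain_eq]
  refine ⟨fun i => φ (B (e.symm i)), ?_, ?_, ?_⟩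
  · intro h
    apply hB0
    funext v
    have := congrFun h (e v)
    simp only [Equiv.symm_apply_apply, Pi.zero_apply] at this
    exact hφ (by rw [this]; simp)
  · rw [aeval_rename]
    have : (fun i => φ (B (e.symm i))) ∘ ee m s = fun v => φ (B v) := by
      funext v; simp [e]
    rw [this]
    have h3 : φ (aeval B (FV K m s)) = aeval (fun v => φ (B v)) (FV K m s) := by
      rw [← MvPolynomial.comp_aeval_apply]
    rw [← h3, hBF, map_zero]
  · intro G hG
    obtain ⟨G', rfl⟩ := (renameEquiv K e).surjective G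
    change aeval _ (rename e G') = 0 at hG
    change rename e _ ∣ rename e _
    apply map_dvd
    apply hB
    rw [aeval_rename] at hG
    have : (fun i => φ (B (e.symm i))) ∘ e = fun v => φ (B v) := by
      funext v; simp
    rw [this] at hG
    have h3 : φ (aeval B G') = aeval (fun v => φ (B v)) G' := by
      rw [← MvPolynomial.comp_aeval_apply]
    apply hφ
    rw [h3, hG, map_zero]

/-- degree one -/
theorem upper_one' (K : Type) [Field K] (n : ℕ) (hn : 1 ≤ n) :
    ∃ F : MvPolynomial (Fin (n + 1)) K, F.IsHomogeneous 1 ∧ Irreducible F ∧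
    (∀ x : Fin (n + 1) → AlgebraicClosure K, ∃ i, aeval x (pderiv i F) ≠ 0) ∧
    ∃ x : Fin (n + 1) → FractionRing (MvPolynomial (Fin n) K),
      x ≠ 0 ∧ aeval x F = 0 ∧ ∀ G, aeval x G = 0 → F ∣ G := by
  refine ⟨X 0, isHomogeneous_X _ _, ?_, ?_, fun i => algebraMap _ _
    ((Fin.cons 0 (fun j => X j) : Fin (n + 1) → MvPolynomial (Fin n) K) i), ?_, ?_, ?_⟩
  · exact (MvPolynomial.X_prime).irreducible
  · intro x
    exact ⟨0, by simp⟩
  · intro h
    have := congrFun h (Fin.succ ⟨0, hn⟩)
    simp only [Fin.cons_succ, Pi.zero_apply] at this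
    rw [IsFractionRing.to_map_eq_zero_iff] at this
    exact X_ne_zero _ this
  · rw [aeval_X]; simp
  · intro G hG
    have h1 : aeval (fun i => algebraMap (MvPolynomial (Fin n) K)
        (FractionRing (MvPolynomial (Fin n) K))
        ((Fin.cons 0 (fun j => X j) : Fin (n + 1) → MvPolynomial (Fin n) K) i)) G
        = algebraMap _ _ (aeval (Fin.cons 0 (fun j => X j) : Fin (n + 1) → MvPolynomial (Fin n) K) G) := by
      rw [← MvPolynomial.aeval_algebraMap_apply]; rfl
    rw [h1, IsFractionRing.to_map_eq_zero_iff] at hG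
    -- `G` is divisible by `X 0` modulo its value at `X 0 = 0`
    have h2 : ∀ g : MvPolynomial (Fin (n + 1)) K, (X 0 : MvPolynomial (Fin (n + 1)) K) ∣
        g - rename Fin.succ (aeval (Fin.cons 0 (fun j => X j) :
          Fin (n + 1) → MvPolynomial (Fin n) K) g) := by
      intro g
      induction g using MvPolynomial.induction_on with
      | C c => simp
      | add p q hp hq =>
        rw [map_add, map_add]
        rw [add_sub_add_comm]
        exact dvd_add hp hq
      | mul_X p i hp =>
        rw [map_mul, map_mul, aeval_X]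
        refine Fin.cases ?_ (fun j => ?_) i
        · rw [Fin.cons_zero, map_zero, mul_zero, sub_zero]
          exact dvd_mul_left _ _
        · rw [Fin.cons_succ, rename_X, ← sub_mul]
          exact Dvd.dvd.mul_right hp _
    have h3 := h2 G
    rw [hG, map_zero, sub_zero] at h3
    exact h3

end Pool.Agent.Y68.UH
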